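import Pool.Agent.Helper70.Matching.Specs4

/-! Packet M-C6c: spread points cost more than clustered points. -/

set_option autoImplicit false
open Finset

namespace Pool.Agent.Helper42.Match

open Pool.Agent.Helper70.Matching

theorem mem_sites {D : NBox} {N : ℕ} {v : Site N} :
    v ∈ D.sites N ↔ D.x0 ≤ (v.1 : ℕ) ∧ (v.1 : ℕ) < D.x1 ∧ D.y0 ≤ (v.2 : ℕ) ∧ (v.2 : ℕ) < D.y1 := by
  simp [NBox.sites]

theorem half_iff {a b : ℕ} {h : ℝ} (hh : 0 < h) :
    ((a : ℝ) * h < ((b : ℝ) + 1 / 2) * h) ↔ a ≤ b := by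
  rw [mul_lt_mul_iff_left₀ hh]
  constructor
  · intro hab
    by_contra hc
    have : b + 1 ≤ a := by omega
    have : ((b : ℝ) + 1) ≤ a := by exact_mod_cast this
    linarith
  · intro hab
    have : (a : ℝ) ≤ b := by exact_mod_cast hab
    linarith

theorem half_iff' {a b : ℕ} {h : ℝ} (hh : 0 < h) :
    (((b : ℝ) + 1 / 2) * h < (a : ℝ) * h) ↔ b < a := by
  rw [mul_lt_mul_iff_left₀ hh]
  constructor
  · intro hab
    by_contra hc
    have : a ≤ b := by omega
    have : (a : ℝ) ≤ b := by exact_mod_cast this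
    linarith
  · intro hab
    have : ((b : ℝ) + 1) ≤ a := by exact_mod_cast hab
    linarith

theorem pos_mem_I {D : NBox} {N : ℕ} {v : Site N} {h : ℝ} (hh : 0 < h) :
    pos h v ∈ (D.rect h).I ↔ v ∈ D.sites N := by
  rw [mem_sites]
  change ((D.x0 : ℝ) * h < ((v.1 : ℕ) + 1 / 2 : ℝ) * h ∧ ((v.1 : ℕ) + 1 / 2 : ℝ) * h < (D.x1 : ℝ) * h ∧
    (D.y0 : ℝ) * h < ((v.2 : ℕ) + 1 / 2 : ℝ) * h ∧ ((v.2 : ℕ) + 1 / 2 : ℝ) * h < (D.y1 : ℝ) * h) ↔ _
  rw [half_iff hh, half_iff' hh, half_iff hh, half_iff' hh]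

theorem pos_injective {N : ℕ} {h : ℝ} (hh : 0 < h) : Function.Injective (pos h : Site N → ℂ) := by
  intro v v' hv
  have h1 : ((v.1 : ℕ) + 1 / 2 : ℝ) * h = ((v'.1 : ℕ) + 1 / 2 : ℝ) * h := congrArg Complex.re hv
  have h2 : ((v.2 : ℕ) + 1 / 2 : ℝ) * h = ((v'.2 : ℕ) + 1 / 2 : ℝ) * h := congrArg Complex.im hv
  have h3 := mul_right_cancel₀ hh.ne' h1
  have h4 := mul_right_cancel₀ hh.ne' h2
  ext
  · have : ((v.1 : ℕ) : ℝ) = ((v'.1 : ℕ) : ℝ) := by linarith
    exact_mod_cast this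
  · have : ((v.2 : ℕ) : ℝ) = ((v'.2 : ℕ) : ℝ) := by linarith
    exact_mod_cast this

theorem pts_add {N : ℕ} {h : ℝ} {A D : Finset (Site N)} (hD : D ⊆ A) (ω : Site N → Bool) :
    pts h A ω = pts h (A \ D) ω + pts h D ω := by
  classical
  unfold pts
  rw [← Multiset.map_add]
  congr 1
  have h1 : A.filter (fun v => ω v = true) =
      ((A \ D).filter (fun v => ω v = true)).disjUnion (D.filter (fun v => ω v = true))
        (Finset.disjoint_filter_filter Finset.sdiff_disjoint) := by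
    rw [Finset.disjUnion_eq_union, ← Finset.filter_union, Finset.sdiff_union_of_subset hD]
  rw [h1]
  rfl

theorem card_pts {N : ℕ} {h : ℝ} (A : Finset (Site N)) (ω : Site N → Bool) :
    Multiset.card (pts h A ω) = cnt A ω := by
  unfold pts cnt
  rw [Multiset.card_map]
  rfl

theorem re_le_dist (x y : ℂ) : |x.re - y.re| ≤ dist x y := by
  rw [Complex.dist_eq, ← Complex.sub_re]
  exact Complex.abs_re_le_norm _

theorem im_le_dist (x y : ℂ) : |x.im - y.im| ≤ dist x y := by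
  rw [Complex.dist_eq, ← Complex.sub_im]
  exact Complex.abs_im_le_norm _

theorem dist_le_add (x y : ℂ) : dist x y ≤ |x.re - y.re| + |x.im - y.im| := by
  rw [Complex.dist_eq, ← Complex.sub_re, ← Complex.sub_im]
  exact Complex.norm_le_abs_re_add_abs_im _

/-- If the `K * K` disjoint cells contain one point each and there are `K * K` points in total,
every point lies in a cell. -/
theorem exists_cell {V : Type} [DecidableEq V] {K : ℕ} (S : Fin K → Fin K → Finset V)
    (D : Finset V) (hS : ∀ a b, S a b ⊆ D) (hdis : ∀ a b a' b', (a, b) ≠ (a', b') →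
      Disjoint (S a b) (S a' b')) (ω : V → Bool) (h1 : ∀ a b, cnt (S a b) ω = 1)
    (h2 : cnt D ω = K * K) {v : V} (hv : v ∈ D) (hω : ω v = true) : ∃ a b, v ∈ S a b := by
  have hsub : (univ : Finset (Fin K × Fin K)).biUnion
      (fun p => (S p.1 p.2).filter (fun v => ω v = true)) ⊆ D.filter (fun v => ω v = true) := by
    intro x hx
    rw [Finset.mem_biUnion] at hx
    obtain ⟨p, -, hx⟩ := hx
    rw [Finset.mem_filter] at hx ⊢
    exact ⟨hS _ _ hx.1, hx.2⟩
  have hcard : ((univ : Finset (Fin K × Fin K)).biUnion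
      (fun p => (S p.1 p.2).filter (fun v => ω v = true))).card = K * K := by
    rw [Finset.card_biUnion]
    · have : ∀ p : Fin K × Fin K, ((S p.1 p.2).filter (fun v => ω v = true)).card = 1 :=
        fun p => h1 p.1 p.2
      simp [this]
    · intro p _ p' _ hpp
      exact Finset.disjoint_filter_filter (hdis p.1 p.2 p'.1 p'.2 hpp)
  have heq := Finset.eq_of_subset_of_card_le hsub (by rw [hcard]; exact h2.le)
  have : v ∈ D.filter (fun v => ω v = true) := Finset.mem_filter.2 ⟨hv, hω⟩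
  rw [← heq, Finset.mem_biUnion] at this
  obtain ⟨p, -, hp⟩ := this
  exact ⟨p.1, p.2, (Finset.mem_filter.1 hp).1⟩

theorem uniq_cell {V : Type} [DecidableEq V] {S : Finset V} {ω : V → Bool} (h1 : cnt S ω = 1)
    {v v' : V} (hv : v ∈ S) (hv' : v' ∈ S) (hω : ω v = true) (hω' : ω v' = true) : v = v' := by
  unfold cnt at h1
  obtain ⟨x, hx⟩ := Finset.card_eq_one.1 h1
  have h2 : v ∈ S.filter (fun v => ω v = true) := Finset.mem_filter.2 ⟨hv, hω⟩
  have h3 : v' ∈ S.filter (fun v => ω v = true) := Finset.mem_filter.2 ⟨hv', hω'⟩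
  rw [hx, Finset.mem_singleton] at h2 h3
  rw [h2, h3]

/-- Corner of the rectangle. -/
theorem corner_mem {D : NBox} (hD : D.ok) {h : ℝ} (hh : 0 < h) :
    (⟨D.x0 * h, D.y0 * h⟩ : ℂ) ∈ (D.rect h).bd := by
  have h1 : (D.x0 : ℝ) * h ≤ D.x1 * h := by
    have : (D.x0 : ℝ) ≤ D.x1 := by exact_mod_cast hD.1
    exact mul_le_mul_of_nonneg_right this hh.le
  have h2 : (D.y0 : ℝ) * h ≤ D.y1 * h := by
    have : (D.y0 : ℝ) ≤ D.y1 := by exact_mod_cast hD.2
    exact mul_le_mul_of_nonneg_right this hh.le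
  exact ⟨le_refl _, h1, le_refl _, h2, Or.inl rfl⟩

theorem lower_bound {Fn : Set ℂ → Multiset ℂ → ℝ} {C : ℝ} (hF : Good Fn C) {K H N g1 X0 Y0 : ℕ}
    {h : ℝ} (hh : 0 < h) (hH : 1 ≤ H) {ω : Site N → Bool}
    (h1 : ∀ a b : Fin K, cnt ((lsq X0 Y0 g1 (2 * H * a + H) (2 * H * b + H)).sites N) ω = 1)
    (h2 : cnt ((NBox.mk X0 (X0 + K * (2 * H) * g1) Y0 (Y0 + K * (2 * H) * g1)).sites N) ω = K * K) :
    ((H : ℝ) - 1) * (g1 * h) * (K * K) ≤
      Fn ((NBox.mk X0 (X0 + K * (2 * H) * g1) Y0 (Y0 + K * (2 * H) * g1)).rect h).bd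
        (pts h ((NBox.mk X0 (X0 + K * (2 * H) * g1) Y0 (Y0 + K * (2 * H) * g1)).sites N) ω) := by
  classical
  set D := NBox.mk X0 (X0 + K * (2 * H) * g1) Y0 (Y0 + K * (2 * H) * g1) with hD
  have hDok : D.ok := ⟨Nat.le_add_right _ _, Nat.le_add_right _ _⟩
  have hH' : (1 : ℝ) ≤ H := by exact_mod_cast hH
  set F := (D.sites N).filter (fun v => ω v = true) with hFdef
  have hcell : ∀ v ∈ F, ∃ a b : Fin K,
      v ∈ (lsq X0 Y0 g1 (2 * H * a + H) (2 * H * b + H)).sites N := by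
    intro v hv
    rw [hFdef, Finset.mem_filter] at hv
    refine exists_cell (fun a b : Fin K => (lsq X0 Y0 g1 (2 * H * a + H) (2 * H * b + H)).sites N)
      (D.sites N) ?_ ?_ ω h1 h2 hv.1 hv.2
    · intro a b x hx
      rw [mem_sites] at hx ⊢
      simp only [lsq] at hx
      have ha : (2 * H * (a : ℕ) + H + 1) * g1 ≤ K * (2 * H) * g1 := by
        refine Nat.mul_le_mul_right _ ?_
        have : 2 * H * ((a : ℕ) + 1) ≤ 2 * H * K := Nat.mul_le_mul_left _ a.2
        nlinarith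
      have hb : (2 * H * (b : ℕ) + H + 1) * g1 ≤ K * (2 * H) * g1 := by
        refine Nat.mul_le_mul_right _ ?_
        have : 2 * H * ((b : ℕ) + 1) ≤ 2 * H * K := Nat.mul_le_mul_left _ b.2
        nlinarith
      simp only [hD]
      refine ⟨?_, ?_, ?_, ?_⟩
      · exact le_trans (Nat.le_add_right _ _) hx.1
      · omega
      · exact le_trans (Nat.le_add_right _ _) hx.2.2.1
      · omega
    · intro a b a' b' hne
      rw [Finset.disjoint_left]
      intro x hx hx'
      rw [mem_sites] at hx hx'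
      simp only [lsq] at hx hx'
      apply hne
      have key : ∀ (a a' : Fin K) (t Z : ℕ), Z + (2 * H * (a : ℕ) + H) * g1 ≤ t →
          t < Z + (2 * H * (a' : ℕ) + H + 1) * g1 → (a : ℕ) ≤ a' := by
        intro a a' t Z ht ht'
        by_contra hc
        have hc' : (a' : ℕ) + 1 ≤ a := by omega
        have h3 : 2 * H * ((a' : ℕ) + 1) ≤ 2 * H * a := Nat.mul_le_mul_left _ hc'
        have h4 : (2 * H * (a' : ℕ) + H + 1) * g1 ≤ (2 * H * (a : ℕ) + H) * g1 := by
          refine Nat.mul_le_mul_right _ ?_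
          nlinarith
        omega
      have e1 : a = a' := Fin.ext (le_antisymm (key a a' _ _ hx.1 hx'.2.1)
        (key a' a _ _ hx'.1 hx.2.1))
      have e2 : b = b' := Fin.ext (le_antisymm (key b b' _ _ hx.2.2.1 hx'.2.2.2)
        (key b' b _ _ hx'.2.2.1 hx.2.2.2))
      rw [e1, e2]
  set s : Finset ℂ := F.map ⟨pos h, pos_injective hh⟩ with hs
  have hsv : s.val = pts h (D.sites N) ω := by
    rw [hs, Finset.map_val]
    rfl
  have hsc : (s.card : ℝ) = K * K := by
    rw [hs, Finset.card_map]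
    have : F.card = K * K := h2
    rw [this]
    push_cast
    ring
  have hρ : 0 ≤ ((H : ℝ) - 1) * (g1 * h) := by
    have : 0 ≤ (H : ℝ) - 1 := by linarith
    positivity
  have key := hF.lower (D.rect h).bd s (((H : ℝ) - 1) * (g1 * h)) ⟨_, corner_mem hDok hh⟩ hρ ?_ ?_
  · rw [hsc, hsv] at key
    exact key
  · -- distances between the points
    intro x hx y hy hxy
    rw [hs, Finset.mem_map] at hx hy
    obtain ⟨v, hv, rfl⟩ := hx
    obtain ⟨v', hv', rfl⟩ := hy
    simp only [Function.Embedding.coeFn_mk] at hxy ⊢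
    obtain ⟨a, b, hab⟩ := hcell v hv
    obtain ⟨a', b', hab'⟩ := hcell v' hv'
    have hne : (a, b) ≠ (a', b') := by
      intro he
      have e1 : a = a' := congrArg Prod.fst he
      have e2 : b = b' := congrArg Prod.snd he
      subst e1 e2
      apply hxy
      rw [uniq_cell (h1 a b) hab hab' (Finset.mem_filter.1 hv).2 (Finset.mem_filter.1 hv').2]
    rw [mem_sites] at hab hab'
    simp only [lsq] at hab hab'
    have key : ∀ (a a' : Fin K) (t t' Z : ℕ), a ≠ a' → Z + (2 * H * (a : ℕ) + H) * g1 ≤ t →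
        t < Z + (2 * H * (a : ℕ) + H + 1) * g1 → Z + (2 * H * (a' : ℕ) + H) * g1 ≤ t' →
        t' < Z + (2 * H * (a' : ℕ) + H + 1) * g1 →
        2 * (((H : ℝ) - 1) * (g1 * h)) ≤ |((t : ℝ) + 1 / 2) * h - ((t' : ℝ) + 1 / 2) * h| := by
      have aux : ∀ (a a' : Fin K) (t t' Z : ℕ), a < a' →
          t < Z + (2 * H * (a : ℕ) + H + 1) * g1 → Z + (2 * H * (a' : ℕ) + H) * g1 ≤ t' →
          2 * (((H : ℝ) - 1) * (g1 * h)) ≤ ((t' : ℝ) + 1 / 2) * h - ((t : ℝ) + 1 / 2) * h := by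
        intro a a' t t' Z haa ht ht'
        have h3 : (a : ℕ) + 1 ≤ a' := haa
        have h3' : ((a : ℕ) : ℝ) + 1 ≤ ((a' : ℕ) : ℝ) := by exact_mod_cast h3
        have h4 : (t : ℝ) < Z + (2 * H * (a : ℕ) + H + 1) * g1 := by exact_mod_cast ht
        have h5 : (Z : ℝ) + (2 * H * (a' : ℕ) + H) * g1 ≤ t' := by exact_mod_cast ht'
        have h6 : (2 * (H : ℝ) * ((a : ℕ) + 1) + H) * g1 ≤ (2 * H * ((a' : ℕ) : ℝ) + H) * g1 := by
          refine mul_le_mul_of_nonneg_right ?_ (by positivity)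
          have : 2 * (H : ℝ) * (((a : ℕ) : ℝ) + 1) ≤ 2 * H * ((a' : ℕ) : ℝ) :=
            mul_le_mul_of_nonneg_left h3' (by positivity)
          linarith
        have h7 : 2 * (((H : ℝ) - 1) * g1) ≤ (t' : ℝ) - t := by
          have : (0 : ℝ) ≤ g1 := by positivity
          nlinarith
        have h8 : 2 * (((H : ℝ) - 1) * g1) * h ≤ ((t' : ℝ) - t) * h :=
          mul_le_mul_of_nonneg_right h7 hh.le
        nlinarith
      intro a a' t t' Z hne h3 h4 h5 h6
      rcases lt_or_gt_of_ne hne with hlt | hlt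
      · have := aux a a' t t' Z hlt h4 h5
        rw [abs_sub_comm]
        exact this.trans (le_abs_self _)
      · have := aux a' a t' t Z hlt h6 h3
        exact this.trans (le_abs_self _)
    by_cases haa : a = a'
    · have hbb : b ≠ b' := by
        intro hb
        exact hne (by rw [haa, hb])
      exact (key b b' _ _ _ hbb hab.2.2.1 hab.2.2.2 hab'.2.2.1 hab'.2.2.2).trans
        (im_le_dist (pos h v) (pos h v'))
    · exact (key a a' _ _ _ haa hab.1 hab.2.1 hab'.1 hab'.2.1).trans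
        (re_le_dist (pos h v) (pos h v'))
  · -- distances to the boundary
    intro x hx z hz
    rw [hs, Finset.mem_map] at hx
    obtain ⟨v, hv, rfl⟩ := hx
    simp only [Function.Embedding.coeFn_mk]
    obtain ⟨a, b, hab⟩ := hcell v hv
    rw [mem_sites] at hab
    simp only [lsq] at hab
    have key : ∀ (a : Fin K) (t Z : ℕ), Z + (2 * H * (a : ℕ) + H) * g1 ≤ t →
        t < Z + (2 * H * (a : ℕ) + H + 1) * g1 →
        ((H : ℝ) - 1) * (g1 * h) ≤ |((t : ℝ) + 1 / 2) * h - (Z : ℝ) * h| ∧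
        ((H : ℝ) - 1) * (g1 * h) ≤ |((t : ℝ) + 1 / 2) * h - ((Z + K * (2 * H) * g1 : ℕ) : ℝ) * h| := by
      intro a t Z h3 h4
      have h5 : (Z : ℝ) + (2 * H * (a : ℕ) + H) * g1 ≤ t := by exact_mod_cast h3
      have h6 : (t : ℝ) + 1 ≤ Z + (2 * H * (a : ℕ) + H + 1) * g1 := by exact_mod_cast h4
      have h7 : ((a : ℕ) : ℝ) + 1 ≤ K := by exact_mod_cast a.2
      have hg : (0 : ℝ) ≤ g1 := by positivity
      have ha : (0 : ℝ) ≤ ((a : ℕ) : ℝ) := by positivity
      constructor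
      · refine le_trans ?_ (le_abs_self _)
        have h8 : ((H : ℝ) - 1) * g1 ≤ (t : ℝ) + 1 / 2 - Z := by
          have : 0 ≤ 2 * (H : ℝ) * ((a : ℕ) : ℝ) * g1 := by positivity
          nlinarith
        have := mul_le_mul_of_nonneg_right h8 hh.le
        nlinarith
      · rw [abs_sub_comm]
        refine le_trans ?_ (le_abs_self _)
        push_cast
        have h9 : (2 * (H : ℝ) * (((a : ℕ) : ℝ) + 1)) * g1 ≤ (2 * H * K) * g1 := by
          refine mul_le_mul_of_nonneg_right ?_ hg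
          exact mul_le_mul_of_nonneg_left h7 (by positivity)
        have h8 : ((H : ℝ) - 1) * g1 ≤ (Z : ℝ) + K * (2 * H) * g1 - (t + 1 / 2) := by
          nlinarith
        have := mul_le_mul_of_nonneg_right h8 hh.le
        nlinarith
    obtain ⟨hz1, hz2, hz3, hz4, hz5⟩ := hz
    rcases hz5 with hz5 | hz5 | hz5 | hz5
    · refine le_trans ?_ (re_le_dist (pos h v) z)
      rw [hz5]
      exact (key a _ _ hab.1 hab.2.1).1
    · refine le_trans ?_ (re_le_dist (pos h v) z)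
      rw [hz5]
      exact (key a _ _ hab.1 hab.2.1).2
    · refine le_trans ?_ (im_le_dist (pos h v) z)
      rw [hz5]
      exact (key b _ _ hab.2.2.1 hab.2.2.2).1
    · refine le_trans ?_ (im_le_dist (pos h v) z)
      rw [hz5]
      exact (key b _ _ hab.2.2.1 hab.2.2.2).2

theorem upper_bound {Fn : Set ℂ → Multiset ℂ → ℝ} {C : ℝ} (hF : Good Fn C) {K M N g1 X0 Y0 : ℕ}
    {h : ℝ} (hh : 0 < h) (hM : K * g1 ≤ M) {ω : Site N → Bool}
    (h1 : ∀ a b : Fin K, cnt ((lsq X0 Y0 g1 a b).sites N) ω = 1)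
    (h2 : cnt ((NBox.mk X0 (X0 + M) Y0 (Y0 + M)).sites N) ω = K * K) :
    Fn ((NBox.mk X0 (X0 + M) Y0 (Y0 + M)).rect h).bd
        (pts h ((NBox.mk X0 (X0 + M) Y0 (Y0 + M)).sites N) ω) ≤
      C * (2 * K * (g1 * h)) * (K * K) := by
  classical
  set D := NBox.mk X0 (X0 + M) Y0 (Y0 + M) with hD
  have hDok : D.ok := ⟨Nat.le_add_right _ _, Nat.le_add_right _ _⟩
  have key := hF.upper (D.rect h).bd (pts h (D.sites N) ω) ⟨D.x0 * h, D.y0 * h⟩ (2 * K * (g1 * h))
    (corner_mem hDok hh) ?_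
  · rw [card_pts, h2] at key
    push_cast at key
    exact key
  · intro x hx
    unfold pts at hx
    rw [Multiset.mem_map] at hx
    obtain ⟨v, hv, rfl⟩ := hx
    have hv' : v ∈ (D.sites N).filter (fun v => ω v = true) := hv
    rw [Finset.mem_filter] at hv'
    obtain ⟨a, b, hab⟩ := exists_cell (fun a b : Fin K => (lsq X0 Y0 g1 a b).sites N)
      (D.sites N) (by
        intro a b x hx
        rw [mem_sites] at hx ⊢
        simp only [lsq] at hx
        have ha : ((a : ℕ) + 1) * g1 ≤ K * g1 := Nat.mul_le_mul_right _ a.2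
        have hb : ((b : ℕ) + 1) * g1 ≤ K * g1 := Nat.mul_le_mul_right _ b.2
        simp only [hD]
        refine ⟨?_, ?_, ?_, ?_⟩
        · exact le_trans (Nat.le_add_right _ _) hx.1
        · omega
        · exact le_trans (Nat.le_add_right _ _) hx.2.2.1
        · omega) (by
        intro a b a' b' hne
        rw [Finset.disjoint_left]
        intro x hx hx'
        rw [mem_sites] at hx hx'
        simp only [lsq] at hx hx'
        apply hne
        have key : ∀ (a a' : Fin K) (t Z : ℕ), Z + (a : ℕ) * g1 ≤ t →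
            t < Z + ((a' : ℕ) + 1) * g1 → (a : ℕ) ≤ a' := by
          intro a a' t Z ht ht'
          by_contra hc
          have hc' : (a' : ℕ) + 1 ≤ a := by omega
          have h4 : ((a' : ℕ) + 1) * g1 ≤ (a : ℕ) * g1 := Nat.mul_le_mul_right _ hc'
          omega
        have e1 : a = a' := Fin.ext (le_antisymm (key a a' _ _ hx.1 hx'.2.1)
          (key a' a _ _ hx'.1 hx.2.1))
        have e2 : b = b' := Fin.ext (le_antisymm (key b b' _ _ hx.2.2.1 hx'.2.2.2)
          (key b' b _ _ hx'.2.2.1 hx.2.2.2))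
        rw [e1, e2]) ω h1 h2 hv'.1 hv'.2
    rw [mem_sites] at hab
    simp only [lsq] at hab
    have key : ∀ (a : Fin K) (t Z : ℕ), Z + (a : ℕ) * g1 ≤ t → t < Z + ((a : ℕ) + 1) * g1 →
        |((t : ℝ) + 1 / 2) * h - (Z : ℝ) * h| ≤ K * (g1 * h) := by
      intro a t Z h3 h4
      have h5 : (Z : ℝ) ≤ t := by exact_mod_cast le_trans (Nat.le_add_right _ _) h3
      have h6 : (t : ℝ) + 1 ≤ Z + (((a : ℕ) : ℝ) + 1) * g1 := by exact_mod_cast h4
      have h7 : ((a : ℕ) : ℝ) + 1 ≤ K := by exact_mod_cast a.2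
      have h8 : (((a : ℕ) : ℝ) + 1) * g1 ≤ K * g1 := mul_le_mul_of_nonneg_right h7 (by positivity)
      rw [← sub_mul, abs_mul, abs_of_pos hh, abs_of_nonneg (by linarith), ← mul_assoc]
      exact mul_le_mul_of_nonneg_right (by linarith) hh.le
    refine (dist_le_add _ _).trans ?_
    have e1 := key a _ _ hab.1 hab.2.1
    have e2 := key b _ _ hab.2.2.1 hab.2.2.2
    have e1' : |(pos h v).re - (⟨D.x0 * h, D.y0 * h⟩ : ℂ).re| ≤ K * (g1 * h) := e1
    have e2' : |(pos h v).im - (⟨D.x0 * h, D.y0 * h⟩ : ℂ).im| ≤ K * (g1 * h) := e2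
    linarith

theorem gap : Spec_gap := by
  classical
  intro Fn C hF
  have hC := hF.one_le
  set c : ℕ := ⌈C⌉₊ with hc
  have hcC : C ≤ c := Nat.le_ceil C
  have hc1 : (1 : ℝ) ≤ c := hC.trans hcC
  have hc1' : 1 ≤ c := by exact_mod_cast hc1
  obtain ⟨K, hK⟩ : ∃ K, K = 16 * c := ⟨_, rfl⟩
  obtain ⟨H, hH⟩ : ∃ H, H = 128 * c ^ 2 := ⟨_, rfl⟩
  have hH1 : 1 ≤ H := by rw [hH]; nlinarith
  refine ⟨K, 2 * H, by omega, by omega, ?_⟩
  intro N B rs g1 X0 Y0 h j hN hg hh hs hsub ω ω' hoff hω hωD hω' hωD'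
  have hhalf : 2 * H / 2 = H := by omega
  rw [hhalf] at hω
  obtain ⟨M, hM⟩ : ∃ M, M = K * (2 * H) * g1 := ⟨_, rfl⟩
  set D := NBox.mk X0 (X0 + K * (2 * H) * g1) Y0 (Y0 + K * (2 * H) * g1) with hD
  have hDok : D.ok := ⟨Nat.le_add_right _ _, Nat.le_add_right _ _⟩
  have hlow := lower_bound hF hh hH1 hω hωD
  have hup := upper_bound hF hh (M := K * (2 * H) * g1) (by nlinarith) hω' hωD'
  rw [← hD] at hlow hup
  -- locality
  set s : ℝ := ((K * (2 * H) * g1 : ℕ) : ℝ) * h with hsdef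
  have hDre : (D.rect h).a' - (D.rect h).a = s := by
    change ((X0 + K * (2 * H) * g1 : ℕ) : ℝ) * h - (X0 : ℝ) * h = s
    rw [hsdef]; push_cast; ring
  have hDim : (D.rect h).c' - (D.rect h).c = s := by
    change ((Y0 + K * (2 * H) * g1 : ℕ) : ℝ) * h - (Y0 : ℝ) * h = s
    rw [hsdef]; push_cast; ring
  have hs0 : 0 ≤ s := by linarith
  set R := D.rect h with hR
  set b := blk rs j with hb
  have hsubS : D.sites N ⊆ b.sites N := by
    intro v hv
    rw [mem_sites] at hv ⊢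
    obtain ⟨s1, s2, s3, s4⟩ := hsub
    omega
  have hloc := hF.loc R ⟨R.a, R.a, R.c, R.c⟩ (b.rect h).bd (2 * s)
    (pts h (b.sites N \ D.sites N) ω') (pts h (D.sites N) ω') 0 (pts h (D.sites N) ω) 0
    ⟨by linarith, by linarith⟩ ⟨le_refl _, le_refl _⟩ ?_ ?_ ?_ ?_ ?_ ?_ ?_ ?_ ?_ ?_ ?_ ?_
  · have hO : pts h (b.sites N \ D.sites N) ω' = pts h (b.sites N \ D.sites N) ω := by
      unfold pts
      congr 2
      refine Finset.filter_congr fun v hv => ?_
      rw [hoff v (Finset.mem_sdiff.1 hv).2]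
    have e1 : pts h (b.sites N \ D.sites N) ω' + pts h (D.sites N) ω' = pts h (b.sites N) ω' :=
      (pts_add hsubS ω').symm
    have e2 : pts h (b.sites N \ D.sites N) ω' + pts h (D.sites N) ω = pts h (b.sites N) ω := by
      rw [hO]; exact (pts_add hsubS ω).symm
    rw [add_zero, add_zero, e1, e2] at hloc
    have hsz : R.size = 2 * s := by
      unfold Rect.size
      rw [hDre, hDim]; ring
    have hsz2 : (⟨R.a, R.a, R.c, R.c⟩ : Rect).size = 0 := by
      unfold Rect.size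
      simp
    rw [hsz, hsz2] at hloc
    have hFj : Fj Fn h rs j ω' = Fn (b.rect h).bd (pts h (b.sites N) ω') := rfl
    have hFj' : Fj Fn h rs j ω = Fn (b.rect h).bd (pts h (b.sites N) ω) := rfl
    rw [hFj, hFj']
    -- numbers
    have hw : 0 < (g1 : ℝ) * h := by
      have : (0 : ℝ) < g1 := by exact_mod_cast hg
      positivity
    set w : ℝ := g1 * h with hwdef
    have hKr : (K : ℝ) = 16 * c := by rw [hK]; push_cast; ring
    have hHr : (H : ℝ) = 128 * c ^ 2 := by rw [hH]; push_cast; ring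
    have hsw : s = K * (2 * H) * w := by
      rw [hsdef, hwdef]; push_cast; ring
    have hnum : 4 * C * s + 1 ≤ ((H : ℝ) - 1) * w * (K * K) - C * (2 * K * w) * (K * K) := by
      have h1 : 4 * C * s + 1 ≤ (4 * c + 1) * s := by nlinarith
      have h2 : ((H : ℝ) - 1) * w * (K * K) - c * (2 * K * w) * (K * K) ≤
          ((H : ℝ) - 1) * w * (K * K) - C * (2 * K * w) * (K * K) := by
        have : 0 ≤ (2 * K * w) * (K * K) := by positivity
        nlinarith
      refine h1.trans (le_trans ?_ h2)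
      rw [hsw, hKr, hHr]
      have : (4 * (c : ℝ) + 1) * (16 * c * (2 * (128 * c ^ 2)) * w) =
          (16 * c * w) * ((8 * c + 2) * (128 * c ^ 2)) := by ring
      rw [this]
      have : ((128 : ℝ) * c ^ 2 - 1) * w * (16 * c * (16 * c)) - c * (2 * (16 * c) * w) * (16 * c * (16 * c))
          = (16 * c * w) * ((128 * c ^ 2 - 1) * (16 * c) - c * (2 * (16 * c)) * (16 * c)) := by ring
      rw [this]
      refine mul_le_mul_of_nonneg_left ?_ (by positivity)
      nlinarith [mul_nonneg (by linarith : (0:ℝ) ≤ c - 1) (by positivity : (0:ℝ) ≤ (c:ℝ)^2),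
        mul_nonneg (by linarith : (0:ℝ) ≤ c - 1) (by positivity : (0:ℝ) ≤ (c:ℝ))]
    linarith
  · rw [Set.disjoint_left]
    intro z _ hz
    exact lt_irrefl _ (hz.1.trans hz.2.1)
  · rw [Set.disjoint_left]
    intro z _ hz
    exact lt_irrefl _ (hz.1.trans hz.2.1)
  · -- W and the interior of D
    rw [Set.disjoint_left]
    intro z hz hz'
    obtain ⟨s1, s2, s3, s4⟩ := hsub
    obtain ⟨z1, z2, z3, z4⟩ := hz'
    obtain ⟨-, -, -, -, hz5⟩ := hz
    have q1 : (b.rect h).a ≤ R.a := mul_le_mul_of_nonneg_right (by exact_mod_cast s1) hh.le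
    have q2 : R.a' ≤ (b.rect h).a' := mul_le_mul_of_nonneg_right (by exact_mod_cast s2) hh.le
    have q3 : (b.rect h).c ≤ R.c := mul_le_mul_of_nonneg_right (by exact_mod_cast s3) hh.le
    have q4 : R.c' ≤ (b.rect h).c' := mul_le_mul_of_nonneg_right (by exact_mod_cast s4) hh.le
    rcases hz5 with e | e | e | e <;> linarith
  · rw [Set.disjoint_left]
    intro z _ hz
    exact lt_irrefl _ (hz.1.trans hz.2.1)
  · -- diameter
    have hall : ∀ x ∈ R.bd ∪ (⟨R.a, R.a, R.c, R.c⟩ : Rect).bd,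
        R.a ≤ x.re ∧ x.re ≤ R.a' ∧ R.c ≤ x.im ∧ x.im ≤ R.c' := by
      intro x hx
      rcases hx with hx | hx
      · exact ⟨hx.1, hx.2.1, hx.2.2.1, hx.2.2.2.1⟩
      · obtain ⟨x1, x2, x3, x4, -⟩ := hx
        simp only at x1 x2 x3 x4
        refine ⟨x1, ?_, x3, ?_⟩ <;> linarith
    intro x hx y hy
    obtain ⟨x1, x2, x3, x4⟩ := hall x hx
    obtain ⟨y1, y2, y3, y4⟩ := hall y hy
    refine (dist_le_add x y).trans ?_
    have t1 : |x.re - y.re| ≤ s := abs_le.2 ⟨by linarith, by linarith⟩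
    have t2 : |x.im - y.im| ≤ s := abs_le.2 ⟨by linarith, by linarith⟩
    linarith
  · intro x hx
    unfold pts at hx
    rw [Multiset.mem_map] at hx
    obtain ⟨v, hv, rfl⟩ := hx
    have hv' : v ∈ (b.sites N \ D.sites N).filter (fun v => ω' v = true) := hv
    refine ⟨?_, fun hz => lt_irrefl _ (hz.1.trans hz.2.1)⟩
    intro hz
    rw [hR, pos_mem_I hh] at hz
    exact (Finset.mem_sdiff.1 (Finset.mem_filter.1 hv').1).2 hz
  · intro x hx
    unfold pts at hx
    rw [Multiset.mem_map] at hx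
    obtain ⟨v, hv, rfl⟩ := hx
    have hv' : v ∈ (D.sites N).filter (fun v => ω' v = true) := hv
    rw [hR, pos_mem_I hh]
    exact (Finset.mem_filter.1 hv').1
  · intro x hx
    simp at hx
  · intro x hx
    unfold pts at hx
    rw [Multiset.mem_map] at hx
    obtain ⟨v, hv, rfl⟩ := hx
    have hv' : v ∈ (D.sites N).filter (fun v => ω v = true) := hv
    rw [hR, pos_mem_I hh]
    exact (Finset.mem_filter.1 hv').1
  · intro x hx
    simp at hx
  · left
    refine ⟨_, corner_mem ⟨?_, ?_⟩ hh⟩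
    · rw [hb]
      simp only [blk]
      exact Nat.mul_le_mul_right _ (Nat.le_succ _)
    · rw [hb]
      simp only [blk]
      exact Nat.mul_le_mul_right _ (Nat.le_succ _)
  · left
    rw [add_zero, add_zero, Multiset.card_add, card_pts, card_pts, hωD, hωD']
    exact ⟨K * K, rfl⟩

end Pool.Agent.Helper42.Match
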